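import Pool.Agent.PSS.StmtsS4
import Pool.Agent.PSS.Nwe

/-!
# Squad PSS, row FRB: frames and Brauer kernels in characteristic `ℓ`
-/

set_option autoImplicit false

open scoped BigOperators TensorProduct

noncomputable section

namespace Pool.Agent.PSS.H52

open Pool.Agent.PSS
open Pool.Agent.PFC (tw IsTv)
open Pool.Agent.PFD.D2b (FrR)

theorem card_tv {H : Type} [Group H] (P' P : Subgroup H) (hle : P' ≤ P)
    (S : Finset H) (hS : IsTv P' P S) : S.card * Nat.card P' = Nat.card P := by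
  classical
  have hb : Function.Bijective (fun z : S × P' =>
      (⟨(z.1 : H) * (z.2 : H), P.mul_mem (hS.1 _ z.1.2) (hle z.2.2)⟩ : P)) := by
    constructor
    · rintro ⟨⟨s, hs⟩, ⟨q, hq⟩⟩ ⟨⟨s', hs'⟩, ⟨q', hq'⟩⟩ h
      simp only [Subtype.mk.injEq] at h
      have hp : s * q ∈ P := P.mul_mem (hS.1 _ hs) (hle hq)
      obtain ⟨t, -, ht⟩ := hS.2 (s * q) hp
      have h1 : s = t := ht s ⟨hs, by simpa using hq⟩
      have h2 : s' = t := ht s' ⟨hs', by rw [h]; simpa using hq'⟩
      have h3 : s = s' := h1.trans h2.symm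
      subst h3
      have h4 : q = q' := mul_left_cancel h
      subst h4
      rfl
    · intro p
      obtain ⟨s, ⟨hs, hs2⟩, -⟩ := hS.2 p p.2
      exact ⟨(⟨s, hs⟩, ⟨_, hs2⟩), Subtype.ext (by simp)⟩
  have := Nat.card_congr (Equiv.ofBijective _ hb)
  rw [Nat.card_prod, Nat.card_eq_fintype_card, Fintype.card_coe] at this
  exact this

theorem card_tv_zero (ℓ : ℕ) [Fact ℓ.Prime] {R H : Type} [CommRing R] [Group H] (hR : (ℓ : R) = 0)
    {K Q : Subgroup H} [Finite Q] (hQ : IsPGroup ℓ Q) (hlt : K < Q) {S : Finset H}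
    (hS : IsTv K Q S) : (S.card : R) = 0 := by
  have hc := card_tv K Q hlt.le S hS
  obtain ⟨k, hk⟩ := (IsPGroup.iff_card).1 hQ
  have hdiv : S.card ∣ ℓ ^ k := ⟨_, by rw [← hk]; exact hc.symm⟩
  obtain ⟨j, -, hj⟩ := (Nat.dvd_prime_pow (Fact.out : ℓ.Prime)).1 hdiv
  rcases Nat.eq_zero_or_pos j with h0 | h0
  · exfalso
    rw [h0, pow_zero] at hj
    rw [hj, one_mul] at hc
    have hfin : (Q : Set H).Finite := Set.toFinite _
    apply hlt.ne
    apply SetLike.coe_injective
    refine Set.eq_of_subset_of_ncard_le hlt.le ?_ hfin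
    have h1 : (K : Set H).ncard = Nat.card K := rfl
    have h2 : (Q : Set H).ncard = Nat.card Q := rfl
    rw [h1, h2, hc]
  · rw [hj, Nat.cast_pow, hR, zero_pow h0.ne']

theorem frb (orb : OrbStmt) : FrbStmt := by
  classical
  intro ℓ _ R H M Ω _ _ _ _ _ _ ρ b c P hR hP hfin hfr
  obtain ⟨fb, fc, fs⟩ := hfr
  constructor
  · intro ω hω m hm
    unfold BKR at hm
    induction hm using Submodule.span_induction with
    | mem n hn =>
      obtain ⟨P', S, m', hlt, hS, hm', rfl⟩ := hn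
      rw [map_sum]
      have h1 : ∀ x ∈ S, c ω (ρ x m') = c ω m' := by
        intro x hx
        have h2 : x • ω = ω := hω (hS.1 x hx)
        conv_lhs => rw [← h2]
        exact fc x ω m'
      rw [Finset.sum_congr rfl h1, Finset.sum_const, nsmul_eq_mul, card_tv_zero ℓ hR hP hlt hS,
        zero_mul]
    | zero => exact map_zero _
    | add a b _ _ ha hb => rw [map_add, ha, hb, add_zero]
    | smul r a _ ha => rw [map_smul, ha, smul_zero]
  · intro m hm
    have h1 : ∀ (p : P) (ω : Ω), c (p • ω) m • b (p • ω) =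
        (ρ.comp P.subtype) p (c ω m • b ω) := by
      intro p ω
      have h2 : (p • ω : Ω) = (p : H) • ω := rfl
      have h3 : c ((p : H) • ω) m = c ω m := by
        have h4 : ρ (p : H) m = m := hm p p.2
        conv_lhs => rw [← h4]
        exact fc (p : H) ω m
      rw [h2, h3, fb, map_smul]
      rfl
    obtain ⟨f, hf⟩ : ∃ f : Ω → M, ∀ ω, f ω = c ω m • b ω := ⟨fun ω => c ω m • b ω, fun _ => rfl⟩
    have h5 : ∑ k, f k - ∑ k : Fp Ω (⊤ : Subgroup P), f k.1 ∈ BKR (ρ.comp P.subtype) ⊤ := by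
      apply orb R P Ω M (ρ.comp P.subtype) f
      intro p ω
      rw [hf, hf]
      exact h1 p ω
    have h6 : ∑ k, f k = m := by
      rw [Finset.sum_congr rfl fun ω _ => hf ω]
      exact fs m
    have h7 : (∑ k : Fp Ω (⊤ : Subgroup P), f k.1 : M) = ∑ ω : Fp Ω P, f ω.1 := by
      obtain ⟨g, hg⟩ : ∃ g : Fp Ω (⊤ : Subgroup P) → Fp Ω P, ∀ k, (g k).1 = k.1 :=
        ⟨fun k => ⟨k.1, fun p hp => k.2 (Subgroup.mem_top (⟨p, hp⟩ : P))⟩, fun _ => rfl⟩
      have hbij : Function.Bijective g := by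
        constructor
        · intro k k' h
          apply Subtype.ext
          rw [← hg, ← hg, h]
        · intro k
          refine ⟨⟨k.1, fun p _ => k.2 p.2⟩, Subtype.ext ?_⟩
          rw [hg]
      exact Fintype.sum_bijective g hbij (fun k => f k.1) (fun ω => f ω.1)
        (fun k => by rw [hg])
    have h8 : BKR (ρ.comp P.subtype) ⊤ = BKR ρ P := by
      have := BKR_range ρ (f := P.subtype) P.subtype_injective
      rw [Subgroup.range_subtype] at this
      exact this.symm
    rw [h6, h7, h8] at h5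
    have h9 : (∑ ω : Fp Ω P, c ω.1 m • b ω.1 : M) = ∑ ω : Fp Ω P, f ω.1 :=
      Finset.sum_congr rfl fun ω _ => (hf ω.1).symm
    rw [h9]
    exact h5

end Pool.Agent.PSS.H52
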