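import Pool.Agent.PSS.StmtsS0

/-!
# Squad PSS, row FTR: a fixed vector is a trace modulo the Brauer kernel
-/

set_option autoImplicit false

open scoped BigOperators TensorProduct

noncomputable section

namespace Pool.Agent.PSS.H52

open Pool.Agent.PSS Pool.Agent.PSS.S0
open Pool.Agent.PFC (tw IsTv)
open Pool.Agent.PFD.D2b (FrR)

theorem ex_tv {H : Type} [Group H] [Finite H] (P : Subgroup H) : ∃ S : Finset H, IsTv P ⊤ S := by
  classical
  have : Fintype (H ⧸ P) := Fintype.ofFinite _
  refine ⟨Finset.univ.image (fun q : H ⧸ P => q.out), fun s _ => Subgroup.mem_top s, ?_⟩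
  intro p _
  refine ⟨(p : H ⧸ P).out, ⟨Finset.mem_image_of_mem _ (Finset.mem_univ _), ?_⟩, ?_⟩
  · rw [← QuotientGroup.eq]
    exact Quotient.out_eq _
  · rintro s ⟨hs, hp⟩
    obtain ⟨q, _, rfl⟩ := Finset.mem_image.1 hs
    rw [← QuotientGroup.eq] at hp
    have h1 : ((Quotient.out q : H) : H ⧸ P) = q := Quotient.out_eq _
    have hq : q = (p : H ⧸ P) := by rw [← h1, hp]
    exact congrArg Quotient.out hq

theorem stab_comm {H Ω : Type} [CommGroup H] [MulAction H Ω] (h : H) (ω : Ω) :
    MulAction.stabilizer H (h • ω) = MulAction.stabilizer H ω := by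
  ext x
  rw [MulAction.mem_stabilizer_iff, MulAction.mem_stabilizer_iff, smul_smul, mul_comm, ← smul_smul]
  exact smul_left_cancel_iff h

theorem ftr (hFco : FcoStmt) (hFpx : FpxStmt) : FtrStmt := by
  classical
  intro ℓ _ R H M Ω _ _ _ _ _ _ _ ρ b c hl hH hF P m hm hP
  obtain ⟨hb, hc, hs⟩ := hF
  obtain ⟨S, hS⟩ := ex_tv P
  have hinv : ∀ (h : H) (ω : Ω), c (h • ω) m = c ω m := by
    intro h ω
    have h1 := hc h ω m
    rw [hm h (Subgroup.mem_top h)] at h1
    exact h1
  have hzero : ∀ ω : Ω, P < MulAction.stabilizer H ω → c ω m = 0 := by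
    intro ω hω
    exact hFco ℓ R H M Ω ρ b c hl hH ⟨hb, hc, hs⟩ _ m (hP _ hω) ω (fun h hh => hh)
  let rr : Ω → Ω := fun ω => (Quotient.mk (MulAction.orbitRel H Ω) ω).out
  have hrr : ∀ ω, ∃ h : H, h • rr ω = ω := by
    intro ω
    have h1 : (MulAction.orbitRel H Ω) (rr ω) ω := Quotient.mk_out (s := MulAction.orbitRel H Ω) ω
    have h2 := (MulAction.orbitRel H Ω).symm h1
    change ω ∈ MulAction.orbit H (rr ω) at h2
    exact h2
  have hrs : ∀ (h : H) ω, rr (h • ω) = rr ω := by
    intro h ω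
    have h1 : Quotient.mk (MulAction.orbitRel H Ω) (h • ω) =
        Quotient.mk (MulAction.orbitRel H Ω) ω := Quotient.sound (by
      change (MulAction.orbitRel H Ω) (h • ω) ω
      rw [MulAction.orbitRel_apply]
      exact ⟨h, rfl⟩)
    change (Quotient.mk (MulAction.orbitRel H Ω) (h • ω)).out = _
    rw [h1]
  set Ω0 : Finset Ω := Finset.univ.filter fun ω => MulAction.stabilizer H ω = P with hΩ0
  set D : Finset Ω := Ω0.filter fun ω => rr ω = ω with hD
  have hst : ∀ ω ∈ D, MulAction.stabilizer H ω = P := by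
    intro ω hω
    exact (Finset.mem_filter.1 (Finset.mem_filter.1 hω).1).2
  refine ⟨∑ ω ∈ D, c ω m • b ω, ?_, S, hS, ?_⟩
  · intro h hh
    rw [map_sum]
    refine Finset.sum_congr rfl fun ω hω => ?_
    rw [map_smul, ← hb]
    have h1 : h ∈ MulAction.stabilizer H ω := by rw [hst ω hω]; exact hh
    rw [MulAction.mem_stabilizer_iff.1 h1]
  · have e1 : ∑ x ∈ S, ρ x (∑ ω ∈ D, c ω m • b ω) = ∑ ω ∈ Ω0, c ω m • b ω := by
      have e2 : ∑ x ∈ S, ρ x (∑ ω ∈ D, c ω m • b ω) =
          ∑ p ∈ S ×ˢ D, c (p.1 • p.2) m • b (p.1 • p.2) := by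
        rw [Finset.sum_product]
        refine Finset.sum_congr rfl fun x _ => ?_
        rw [map_sum]
        refine Finset.sum_congr rfl fun ω _ => ?_
        rw [map_smul, ← hb, hinv]
      rw [e2]
      refine Finset.sum_bij (fun p _ => p.1 • p.2) ?_ ?_ ?_ ?_
      · rintro ⟨x, ω⟩ hp
        have hω := (Finset.mem_product.1 hp).2
        rw [hΩ0, Finset.mem_filter]
        exact ⟨Finset.mem_univ _, (stab_comm x ω).trans (hst ω hω)⟩
      · rintro ⟨x, ω⟩ hp ⟨x', ω'⟩ hp' he
        have hx := (Finset.mem_product.1 hp).1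
        have hω := (Finset.mem_product.1 hp).2
        have hx' := (Finset.mem_product.1 hp').1
        have hω' := (Finset.mem_product.1 hp').2
        change x • ω = x' • ω' at he
        have h1 : ω = ω' := by
          have h2 := congrArg rr he
          rw [hrs, hrs, (Finset.mem_filter.1 hω).2, (Finset.mem_filter.1 hω').2] at h2
          exact h2
        subst h1
        have h3 : x⁻¹ * x' ∈ P := by
          rw [← hst ω hω, MulAction.mem_stabilizer_iff, ← smul_smul, ← he, smul_smul,
            inv_mul_cancel, one_smul]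
        obtain ⟨s, _, hu⟩ := hS.2 x' (Subgroup.mem_top _)
        have h4 := hu x ⟨hx, h3⟩
        have h5 := hu x' ⟨hx', by rw [inv_mul_cancel]; exact P.one_mem⟩
        rw [h4, h5]
      · intro ω hω
        obtain ⟨h, hh⟩ := hrr ω
        have h0 : MulAction.stabilizer H (rr ω) = P := by
          rw [← stab_comm h (rr ω), hh]
          exact (Finset.mem_filter.1 hω).2
        have h1 : rr ω ∈ D := by
          rw [hD, Finset.mem_filter, hΩ0, Finset.mem_filter]
          refine ⟨⟨Finset.mem_univ _, h0⟩, ?_⟩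
          have h2 := hrs h (rr ω)
          rw [hh] at h2
          exact h2.symm
        obtain ⟨s, ⟨hs1, hs2⟩, _⟩ := hS.2 h (Subgroup.mem_top _)
        refine ⟨⟨s, rr ω⟩, Finset.mem_product.2 ⟨hs1, h1⟩, ?_⟩
        change s • rr ω = ω
        rw [← h0, MulAction.mem_stabilizer_iff, ← smul_smul, inv_smul_eq_iff] at hs2
        rw [← hs2, hh]
      · rintro ⟨x, ω⟩ _
        rfl
    rw [e1]
    set g : Ω → M := fun ω => if P ≤ MulAction.stabilizer H ω then 0 else c ω m • b ω with hg
    set K0 : Finset Ω := Finset.univ.filter fun ω => P ≤ MulAction.stabilizer H ω with hK0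
    have e3 : m - ∑ ω ∈ Ω0, c ω m • b ω = ∑ ω, g ω - ∑ ω ∈ K0, g ω := by
      have e4 : ∑ ω ∈ K0, g ω = 0 := by
        refine Finset.sum_eq_zero fun ω hω => ?_
        exact if_pos (Finset.mem_filter.1 hω).2
      rw [e4, sub_zero]
      have e5 : m - ∑ ω ∈ Ω0, c ω m • b ω = ∑ ω, c ω m • b ω - ∑ ω ∈ Ω0, c ω m • b ω := by
        rw [hs m]
      rw [e5]
      rw [hΩ0, Finset.sum_filter, ← Finset.sum_sub_distrib]
      refine Finset.sum_congr rfl fun ω _ => ?_
      change _ = if P ≤ MulAction.stabilizer H ω then (0 : M) else c ω m • b ω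
      split_ifs with h1 h2 h2
      · exact sub_self _
      · exact absurd h1.ge h2
      · rw [hzero ω (lt_of_le_of_ne h2 (fun h => h1 h.symm)), zero_smul, sub_zero]
      · exact sub_zero _
    rw [e3]
    refine hFpx R H M Ω ρ P g K0 ?_ ?_
    · intro h _ ω
      change (if P ≤ MulAction.stabilizer H (h • ω) then (0 : M) else _) =
        ρ h (if P ≤ MulAction.stabilizer H ω then (0 : M) else c ω m • b ω)
      rw [stab_comm]
      split_ifs with h1
      · exact (map_zero _).symm
      · rw [map_smul, ← hb, hinv]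
    · intro ω
      rw [hK0, Finset.mem_filter]
      exact ⟨fun h x hx => h.2 hx, fun h => ⟨Finset.mem_univ _, fun x hx => h x hx⟩⟩

end Pool.Agent.PSS.H52
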