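import Pool.Agent.PSS.StmtsS0

/-!
# Squad PSS, row RFS: a system over a subgroup
-/

set_option autoImplicit false

open scoped BigOperators

noncomputable section

namespace Pool.Agent.PSS.S0.H52

open Pool.Agent.PSS Pool.Agent.PSS.S0
open Pool.Agent.PFC (tw IsTv)

theorem tv_sum {V M : Type} [CommGroup V] [Fintype V] [AddCommMonoid M] {Q : Subgroup V}
    [Fintype Q] {T : Finset V} (hT : IsTv Q ⊤ T) (F : V → M) :
    ∑ t : T, ∑ q : Q, F ((t : V) * q) = ∑ v, F v := by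
  rw [← Fintype.sum_prod_type' (fun (t : T) (q : Q) => F ((t : V) * q))]
  refine Fintype.sum_bijective (fun p : T × Q => ((p.1 : V) * p.2)) ⟨?_, ?_⟩ _ _ fun p => rfl
  · rintro ⟨t, q⟩ ⟨t', q'⟩ h
    have h' : (t : V) * q = (t' : V) * q' := h
    obtain ⟨s, _, hs⟩ := hT.2 ((t : V) * q) (Subgroup.mem_top _)
    have h1 : (t : V) = s := hs t ⟨t.2, by
      rw [inv_mul_cancel_left]
      exact q.2⟩
    have h2 : (t' : V) = s := hs t' ⟨t'.2, by
      rw [h', inv_mul_cancel_left]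
      exact q'.2⟩
    have h3 : t = t' := Subtype.ext (h1.trans h2.symm)
    subst h3
    rw [Prod.mk.injEq]
    exact ⟨rfl, Subtype.ext (mul_left_cancel h')⟩
  · intro v
    obtain ⟨s, ⟨hs, hs'⟩, _⟩ := hT.2 v (Subgroup.mem_top _)
    exact ⟨(⟨s, hs⟩, ⟨s⁻¹ * v, hs'⟩), mul_inv_cancel_left s v⟩

theorem rfs : RfsStmt := by
  intro R V A K _ _ _ _ _ _ α lam x y Q _ T hrf hT
  refine ⟨hrf.sym, ?_, ?_⟩
  · intro a
    conv_rhs => rw [← hrf.e1 a]
    rw [Fintype.sum_prod_type]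
    refine Finset.sum_congr rfl fun k _ => ?_
    rw [← tv_sum hT (fun v => lam (α v⁻¹ * y k * a) • (x k * α v))]
    refine Finset.sum_congr rfl fun t _ => Finset.sum_congr rfl fun q _ => ?_
    change lam (α ((q : V)⁻¹) * (α (t : V)⁻¹ * y k) * a) • (x k * α t * α q) = _
    rw [← mul_assoc, ← map_mul, ← mul_inv_rev, mul_assoc (x k), ← map_mul]
  · intro a
    conv_rhs => rw [← hrf.e2 a]
    rw [Fintype.sum_prod_type]
    refine Finset.sum_congr rfl fun k _ => ?_
    rw [← tv_sum hT (fun v => lam (a * (x k * α v)) • (α v⁻¹ * y k))]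
    refine Finset.sum_congr rfl fun t _ => Finset.sum_congr rfl fun q _ => ?_
    change lam (a * (x k * α t * α q)) • (α ((q : V)⁻¹) * (α (t : V)⁻¹ * y k)) = _
    rw [← mul_assoc (α (q : V)⁻¹), ← map_mul, ← mul_inv_rev, mul_assoc (x k), ← map_mul]

end Pool.Agent.PSS.S0.H52
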