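import Pool.Agent.PSS.StmtsS1a

/-!
# Squad PSS, rows RFM and RFL: dual families lift

`θ a = ∑ lam' (v⁻¹ Y_k a) X_k v` and its adjoint `θ* b = ∑ lam' (b X_k v) v⁻¹ Y_k` are congruent to the
identity, so bijective (UNJ); `Y'_k = (θ*)⁻¹ Y_k`.  (The perfectness of `lam'` is not needed.)
-/

set_option autoImplicit false

open scoped BigOperators TensorProduct

noncomputable section

namespace Pool.Agent.PSS.H52

open Pool.Agent.PSS
open Pool.Agent.PFD.D2 (Cdv FibG)
open Pool.Agent.PFD.D2b (FrR)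
open Finset

section

variable {R V A' K : Type} [CommRing R] [CommGroup V] [Fintype V] [Ring A'] [Algebra R A']
  [Fintype K] (α' : V →* A') (lam' : A' →ₗ[R] R) (X Y : K → A')

/-- `θ` -/
def th : A' →ₗ[R] A' where
  toFun := fun a => ∑ k, ∑ v, lam' (α' v⁻¹ * Y k * a) • (X k * α' v)
  map_add' := fun a b => by
    simp only [mul_add, map_add, add_smul, sum_add_distrib]
  map_smul' := fun r a => by
    rw [RingHom.id_apply, smul_sum]
    refine sum_congr rfl fun k _ => ?_
    rw [smul_sum]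
    refine sum_congr rfl fun v _ => ?_
    rw [mul_smul_comm, map_smul, smul_assoc]

/-- the adjoint of `θ` -/
def ths : A' →ₗ[R] A' where
  toFun := fun b => ∑ k, ∑ v, lam' (b * (X k * α' v)) • (α' v⁻¹ * Y k)
  map_add' := fun a b => by
    simp only [add_mul, map_add, add_smul, sum_add_distrib]
  map_smul' := fun r a => by
    rw [RingHom.id_apply, smul_sum]
    refine sum_congr rfl fun k _ => ?_
    rw [smul_sum]
    refine sum_congr rfl fun v _ => ?_
    rw [smul_mul_assoc, map_smul, smul_assoc]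

theorem th_apply (a : A') :
    th α' lam' X Y a = ∑ k, ∑ v, lam' (α' v⁻¹ * Y k * a) • (X k * α' v) := rfl

theorem ths_apply (b : A') :
    ths α' lam' X Y b = ∑ k, ∑ v, lam' (b * (X k * α' v)) • (α' v⁻¹ * Y k) := rfl

theorem adj (a b : A') : lam' (b * th α' lam' X Y a) = lam' (ths α' lam' X Y b * a) := by
  rw [th_apply, ths_apply, mul_sum, sum_mul, map_sum, map_sum]
  refine sum_congr rfl fun k _ => ?_
  rw [mul_sum, sum_mul, map_sum, map_sum]
  refine sum_congr rfl fun v _ => ?_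
  rw [mul_smul_comm, smul_mul_assoc, map_smul, map_smul, smul_eq_mul, smul_eq_mul, mul_comm]

theorem th_mul (sy : ∀ a b, lam' (a * b) = lam' (b * a)) (a : A') (g : V) :
    th α' lam' X Y (a * α' g) = th α' lam' X Y a * α' g := by
  rw [th_apply, th_apply, sum_mul]
  refine sum_congr rfl fun k _ => ?_
  rw [sum_mul]
  symm
  refine Fintype.sum_equiv (Equiv.mulRight g) _ _ fun w => ?_
  rw [Equiv.coe_mulRight, smul_mul_assoc, mul_assoc (X k), ← map_mul α']
  congr 1
  rw [sy (α' (w * g)⁻¹ * Y k), ← mul_assoc, sy (a * α' g * α' (w * g)⁻¹)]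
  have h1 : a * α' g * α' (w * g)⁻¹ = a * α' w⁻¹ := by
    rw [mul_assoc, ← map_mul α', mul_inv, mul_comm w⁻¹, ← mul_assoc, mul_inv_cancel, one_mul]
  rw [h1, sy, sy (Y k), mul_assoc, sy a]

end

theorem rfm (rfe : RfeStmt) (unj : UnjStmt) : RfmStmt := by
  intro R R₀ V A A' K _ _ _ _ _ _ _ _ _ _ _ p κ α α' q lam lam' x y x' hj _ hred sc sj kr aq lq
    sy hrf xq
  have qs : ∀ (r : R) (a : A'), q (r • a) = κ r • q a := by
    intro r a
    rw [Algebra.smul_def, map_mul, sc, ← Algebra.smul_def]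
  choose Y hY using fun k => sj (y k)
  -- `θ` and its adjoint are congruent to the identity
  have h1 : ∀ a, ∃ b, th α' lam' x' Y a - a = p • b := by
    intro a
    apply kr
    rw [map_sub, sub_eq_zero, th_apply, map_sum]
    conv_rhs => rw [← hrf.e1 (q a)]
    refine sum_congr rfl fun k _ => ?_
    rw [map_sum]
    refine sum_congr rfl fun v _ => ?_
    rw [qs, lq, map_mul q, map_mul q, map_mul q, aq, aq, hY, xq]
  have h2 : ∀ a, ∃ b, ths α' lam' x' Y a - a = p • b := by
    intro a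
    apply kr
    rw [map_sub, sub_eq_zero, ths_apply, map_sum]
    conv_rhs => rw [← hrf.e2 (q a)]
    refine sum_congr rfl fun k _ => ?_
    rw [map_sum]
    refine sum_congr rfl fun v _ => ?_
    rw [qs, lq, map_mul q, map_mul q, map_mul q, aq, aq, hY, xq]
  have b1 := unj R A' p hj _ h1
  have b2 := unj R A' p hj _ h2
  choose y' hy' using fun k => b2.2 (Y k)
  refine ⟨y', ?_, ?_⟩
  · have e1 : ∀ a, ∑ k, ∑ v, lam' (α' v⁻¹ * y' k * a) • (x' k * α' v) = a := by
      intro a
      obtain ⟨a₀, rfl⟩ := b1.2 a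
      conv_rhs => rw [th_apply]
      refine sum_congr rfl fun k _ => sum_congr rfl fun v _ => ?_
      have h3 : lam' (α' v⁻¹ * y' k * th α' lam' x' Y a₀) = lam' (α' v⁻¹ * Y k * a₀) := by
        rw [mul_assoc, sy, mul_assoc, ← th_mul α' lam' x' Y sy, adj, hy', ← mul_assoc, sy,
          ← mul_assoc]
      rw [h3]
    exact (rfe R V A' K α' lam' x' y' sy e1).1
  · intro k
    obtain ⟨b, hb⟩ := h2 (y' k)
    rw [hy'] at hb
    have h4 : κ p = 0 := (hred.ker p).mpr ⟨1, (mul_one p).symm⟩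
    have h5 : q (Y k - y' k) = 0 := by
      rw [hb, qs, h4, zero_smul]
    rw [map_sub, sub_eq_zero, hY] at h5
    exact h5.symm

theorem rfl_ (rfe : RfeStmt) (unj : UnjStmt) : RflStmt := by
  intro R R₀ V A A' K _ _ _ _ _ _ _ _ _ _ _ p κ α α' q lam lam' x y hj hr hred sc sj kr aq lq sy
    hrf
  choose x' hx' using fun k => sj (x k)
  obtain ⟨y', h1, h2⟩ := rfm rfe unj R R₀ V A A' K p κ α α' q lam lam' x y x' hj hr hred sc sj kr
    aq lq sy hrf hx'
  exact ⟨x', y', h1, hx', h2⟩

end Pool.Agent.PSS.H52
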