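import Pool.Agent.PSS.StmtsOB

/-!
# Squad PSS, row SYD: a symmetric 2-cocycle with values in a divisible group is a coboundary
-/

set_option autoImplicit false

noncomputable section

namespace Pool.Agent.PSS.H52

open Pool.Agent.PSS

section

variable {S D : Type} [CommGroup S] [AddCommGroup D] (f : S → S → D)

/-- the extension of `S` by `D` defined by `f` -/
structure SydX (f : S → S → D) where
  /-- the first coordinate -/
  fst : S
  /-- the second coordinate -/
  snd : D

variable {f}

theorem SydX.ext' {p p' : SydX f} (h1 : p.fst = p'.fst) (h2 : p.snd = p'.snd) : p = p' := by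
  cases p
  cases p'
  simp only at h1 h2
  subst h1 h2
  rfl

/-- the group structure -/
@[reducible] def sydG (hs : ∀ u v, f u v = f v u)
    (hc : ∀ u v w, f v w - f (u * v) w + f u (v * w) - f u v = 0) : AddCommGroup (SydX f) :=
  letI : Add (SydX f) := ⟨fun p p' => ⟨p.fst * p'.fst, p.snd + p'.snd + f p.fst p'.fst⟩⟩
  letI : Zero (SydX f) := ⟨⟨1, - f 1 1⟩⟩
  letI : Neg (SydX f) := ⟨fun p => ⟨p.fst⁻¹, - p.snd - f p.fst⁻¹ p.fst - f 1 1⟩⟩
  have h1 : ∀ u, f 1 u = f 1 1 := by
    intro u
    have h := hc 1 1 u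
    rw [one_mul, one_mul, sub_self, zero_add] at h
    exact sub_eq_zero.1 h
  letI : AddGroup (SydX f) := AddGroup.ofLeftAxioms
    (by
      intro p p' p''
      refine SydX.ext' ?_ ?_
      · exact mul_assoc _ _ _
      · change p.snd + p'.snd + f p.fst p'.fst + p''.snd + f (p.fst * p'.fst) p''.fst =
          p.snd + (p'.snd + p''.snd + f p'.fst p''.fst) + f p.fst (p'.fst * p''.fst)
        have h := hc p.fst p'.fst p''.fst
        have h2 : f p'.fst p''.fst + f p.fst (p'.fst * p''.fst) =
            f (p.fst * p'.fst) p''.fst + f p.fst p'.fst := by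
          have h3 : f p'.fst p''.fst + f p.fst (p'.fst * p''.fst) -
              (f (p.fst * p'.fst) p''.fst + f p.fst p'.fst) = 0 := by
            rw [← h]; abel
          exact sub_eq_zero.1 h3
        have h4 : p.snd + (p'.snd + p''.snd + f p'.fst p''.fst) + f p.fst (p'.fst * p''.fst) =
            p.snd + p'.snd + p''.snd + (f p'.fst p''.fst + f p.fst (p'.fst * p''.fst)) := by abel
        rw [h4, h2]
        abel)
    (by
      intro p
      refine SydX.ext' ?_ ?_
      · exact one_mul _
      · change - f 1 1 + p.snd + f 1 p.fst = p.snd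
        rw [h1 p.fst]
        abel)
    (by
      intro p
      refine SydX.ext' ?_ ?_
      · exact inv_mul_cancel _
      · change (- p.snd - f p.fst⁻¹ p.fst - f 1 1) + p.snd + f p.fst⁻¹ p.fst = - f 1 1
        abel)
  { (inferInstance : AddGroup (SydX f)) with
    add_comm := by
      intro p p'
      refine SydX.ext' ?_ ?_
      · exact mul_comm _ _
      · change p.snd + p'.snd + f p.fst p'.fst = p'.snd + p.snd + f p'.fst p.fst
        rw [hs p.fst p'.fst]
        abel }

end

theorem syd : SydStmt := by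
  intro S D _ _ f hd hs hc
  letI := sydG hs hc
  have h1 : ∀ u, f 1 u = f 1 1 := by
    intro u
    have h := hc 1 1 u
    rw [one_mul, one_mul, sub_self, zero_add] at h
    exact sub_eq_zero.1 h
  have hadd : ∀ p p' : SydX f, p + p' = ⟨p.fst * p'.fst, p.snd + p'.snd + f p.fst p'.fst⟩ :=
    fun _ _ => rfl
  letI : DivisibleBy D ℤ := divisibleByOfSMulRightSurj D ℤ (by
    intro n hn d
    obtain ⟨k, hk | hk⟩ := n.eq_nat_or_neg
    · obtain ⟨d', hd'⟩ := hd k (by
        rintro rfl
        exact hn (by rw [hk]; rfl)) d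
      refine ⟨d', ?_⟩
      change n • d' = d
      rw [hk, natCast_zsmul]
      exact hd'
    · obtain ⟨d', hd'⟩ := hd k (by
        rintro rfl
        exact hn (by rw [hk]; rfl)) d
      refine ⟨- d', ?_⟩
      change n • (- d') = d
      rw [hk, neg_smul, smul_neg, neg_neg, natCast_zsmul]
      exact hd')
  let ι : D →+ SydX f :=
    { toFun := fun a => ⟨1, a - f 1 1⟩
      map_zero' := by
        refine SydX.ext' rfl ?_
        change 0 - f 1 1 = - f 1 1
        rw [zero_sub]
      map_add' := by
        intro a b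
        refine SydX.ext' ?_ ?_
        · exact (one_mul (1 : S)).symm
        · change a + b - f 1 1 = (a - f 1 1) + (b - f 1 1) + f 1 1
          abel }
  have hι : Function.Injective ι := by
    intro a b h
    have h2 : a - f 1 1 = b - f 1 1 := congrArg SydX.snd h
    exact sub_left_injective h2
  obtain ⟨r, hr⟩ := (Module.Baer.of_divisible D).extension_property_addMonoidHom ι hι
    (AddMonoidHom.id D)
  have hr' : ∀ a, r (ι a) = a := fun a => DFunLike.congr_fun hr a
  refine ⟨fun u => r ⟨u, 0⟩, fun u v => ?_⟩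
  have h2 : (⟨u, 0⟩ : SydX f) + ⟨v, 0⟩ = ⟨u * v, 0⟩ + ι (f u v) := by
    rw [hadd, hadd]
    refine SydX.ext' ?_ ?_
    · exact (mul_one (u * v)).symm
    · change 0 + 0 + f u v = 0 + (f u v - f 1 1) + f (u * v) 1
      rw [hs (u * v) 1, h1 (u * v)]
      abel
  have h3 := congrArg r h2
  rw [map_add, map_add, hr'] at h3
  change f u v = r ⟨v, 0⟩ - r ⟨u * v, 0⟩ + r ⟨u, 0⟩
  have h4 : r ⟨v, 0⟩ - r ⟨u * v, 0⟩ + r ⟨u, 0⟩ = (r ⟨u, 0⟩ + r ⟨v, 0⟩) - r ⟨u * v, 0⟩ := by abel
  rw [h4, h3]
  abel

end Pool.Agent.PSS.H52
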