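import Pool.Agent.PSS.StmtsS4
import Pool.Agent.PSS.Nwe

/-!
# Squad PSS, row NRS: `N_W(A)` does not depend on `V`
-/

set_option autoImplicit false

open scoped BigOperators TensorProduct

noncomputable section

namespace Pool.Agent.PSS.H52

open Pool.Agent.PSS
open Pool.Agent.PFC (tw IsTv)
open Pool.Agent.PFD.D2b (FrR)

section

variable {V : Type} [CommGroup V] {W V' : Subgroup V} (hWV : W ≤ V')

/-- the automorphisms -/
def tht : MulAut (W.subgroupOf V') ≃* MulAut W := MulAut.congr (Subgroup.subgroupOfEquivOfLe hWV)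

/-- the inclusion -/
def inc (V' : Subgroup V) : V' × V' →* V × V := V'.subtype.prodMap V'.subtype

theorem inc_inj : Function.Injective (inc V') := by
  rintro ⟨a, b⟩ ⟨c, d⟩ h
  have h' : ((a : V), (b : V)) = ((c : V), (d : V)) := h
  rw [Prod.mk.injEq] at h'
  rw [Prod.mk.injEq]
  exact ⟨Subtype.ext h'.1, Subtype.ext h'.2⟩

theorem tht_apply (ε : MulAut (W.subgroupOf V')) (w : W.subgroupOf V') :
    ((tht hWV ε (Subgroup.subgroupOfEquivOfLe hWV w) : W) : V) =
      (((ε w : W.subgroupOf V') : V') : V) := by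
  have h : tht hWV ε (Subgroup.subgroupOfEquivOfLe hWV w) =
      Subgroup.subgroupOfEquivOfLe hWV (ε w) := by
    change Subgroup.subgroupOfEquivOfLe hWV (ε ((Subgroup.subgroupOfEquivOfLe hWV).symm
      (Subgroup.subgroupOfEquivOfLe hWV w))) = _
    rw [MulEquiv.symm_apply_apply]
  rw [h]
  rfl

theorem tw_map (ε : MulAut (W.subgroupOf V')) :
    (twW (W.subgroupOf V') ε).map (inc V') = twW W (tht hWV ε) := by
  ext p
  constructor
  · rintro ⟨_, ⟨w, rfl⟩, rfl⟩
    refine ⟨Subgroup.subgroupOfEquivOfLe hWV w, ?_⟩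
    refine Prod.ext ?_ rfl
    exact tht_apply hWV ε w
  · rintro ⟨w, rfl⟩
    refine ⟨_, ⟨(Subgroup.subgroupOfEquivOfLe hWV).symm w, rfl⟩, ?_⟩
    refine Prod.ext ?_ ?_
    · have h := tht_apply hWV ε ((Subgroup.subgroupOfEquivOfLe hWV).symm w)
      rw [MulEquiv.apply_symm_apply] at h
      exact h.symm
    · have h : ((Subgroup.subgroupOfEquivOfLe hWV ((Subgroup.subgroupOfEquivOfLe hWV).symm w) :
          W) : V) = w := by
        rw [MulEquiv.apply_symm_apply]
      exact h

end

theorem nrs : NrsStmt := by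
  intro R V A B _ _ _ _ _ _ _ α W V' N hWV
  have hbw : bw R (α.comp V'.subtype) = (bw R α).comp (inc V') := rfl
  have hF : ∀ ε, FxR (bw R (α.comp V'.subtype)) (twW (W.subgroupOf V') ε) =
      FxR (bw R α) (twW W (tht hWV ε)) := by
    intro ε
    rw [hbw, ← FxR_map, tw_map]
  have hB : ∀ ε, BKR (bw R (α.comp V'.subtype)) (twW (W.subgroupOf V') ε) =
      BKR (bw R α) (twW W (tht hWV ε)) := by
    intro ε
    rw [hbw, ← BKR_map _ inc_inj, tw_map]
  refine ⟨{
    β := fun ε => N.β (tht hWV ε)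
    one := ?_
    mul := ?_
    ker := ?_
    ind := ?_
    spn := ?_ }, ?_⟩
  · rw [map_one (tht hWV)]
    exact N.one
  · intro ε δ a ha b hb
    rw [map_mul (tht hWV)]
    rw [hF] at ha hb
    exact N.mul _ _ a ha b hb
  · intro ε a ha
    rw [hF] at ha
    rw [hB]
    exact N.ker _ a ha
  · intro f hf h0 ε
    have h1 := N.ind (fun ε => f ((tht hWV).symm ε)) (by
      intro ε
      have h2 := hf ((tht hWV).symm ε)
      rw [hF, MulEquiv.apply_symm_apply] at h2
      exact h2) (by
      rw [← h0]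
      symm
      refine finsum_eq_of_bijective (tht hWV) (tht hWV).bijective fun ε => ?_
      rw [MulEquiv.symm_apply_apply]) (tht hWV ε)
    rw [MulEquiv.symm_apply_apply] at h1
    exact h1
  · intro b
    obtain ⟨f, hf, hb⟩ := N.spn b
    refine ⟨fun ε => f (tht hWV ε), ?_, ?_⟩
    · intro ε
      rw [hF]
      exact hf _
    · rw [← hb]
      exact finsum_eq_of_bijective (tht hWV) (tht hWV).bijective fun ε => rfl
  · intro v
    rw [IsNW.nwh_apply, IsNW.nwh_apply]
    change N.β (tht hWV 1) _ = _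
    rw [map_one (tht hWV)]
    rfl

end Pool.Agent.PSS.H52
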