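import Pool.Agent.PSS.StmtsS2

/-!
# Squad PSS, row WTR: sum over the representatives of the right orbits
-/

set_option autoImplicit false

open scoped BigOperators

noncomputable section

namespace Pool.Agent.PSS.S2.H52

open Pool.Agent.PSS Pool.Agent.PSS.S2
open Pool.Agent.PFC (tw IsTv)
open Pool.Agent.PFD.D2b (FrR)

theorem bw_right {R V A : Type} [CommRing R] [CommGroup V] [Ring A] [Algebra R A] (α : V →* A)
    (v : V) (a : A) : bw R α ((1 : V), v⁻¹) a = a * α v := by
  change α (1 : V) * (a * α (v⁻¹)⁻¹) = a * α v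
  rw [map_one, one_mul, inv_inv]

theorem wtr : WtrStmt := by
  intro R V A K Ω _ _ _ _ _ _ _ _ _ α lam x y b c h κ f hrf hfr htz hκ hf
  obtain ⟨fb, fc, _⟩ := hfr
  have hb : ∀ (v : V) ω, b (((1 : V), v⁻¹) • ω) = b ω * α v := by
    intro v ω
    rw [fb, bw_right]
  have hc : ∀ (v : V) ω n, c (((1 : V), v⁻¹) • ω) n = c ω (n * α v⁻¹) := by
    intro v ω n
    rw [← fc ((1 : V), v⁻¹) ω (n * α v⁻¹), bw_right, mul_assoc, ← map_mul, inv_mul_cancel, map_one,
      mul_one]
  set F : Ω → R := fun ω => κ ω * ∑ k, c ω (x k) * lam (y k * f (b ω)) with hF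
  have h1 : ∀ v ω, F (((1 : V), v⁻¹) • ω) =
      κ ω * ∑ k, c ω (x k * α v⁻¹) * lam (α v * y k * f (b ω)) := by
    intro v ω
    rw [hF]
    simp only
    rw [hκ]
    congr 1
    refine Finset.sum_congr rfl fun k _ => ?_
    rw [hc, hb, hf, hrf.sym, mul_assoc (f (b ω)), hrf.sym]
  have h2 : ∀ ω, ∑ v : V, F (((1 : V), v⁻¹) • ω) = κ ω * c ω (f (b ω)) := by
    intro ω
    rw [Finset.sum_congr rfl fun v _ => h1 v ω, ← Finset.mul_sum, Finset.sum_comm]
    congr 1
    conv_rhs => rw [← hrf.e1 (f (b ω))]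
    rw [map_sum]
    refine Finset.sum_congr rfl fun k _ => ?_
    rw [map_sum]
    refine Fintype.sum_equiv (Equiv.inv V) _ _ fun v => ?_
    rw [Equiv.inv_apply, inv_inv, map_smul, smul_eq_mul, mul_comm]
  have h3 : ∑ ω, F ω = ∑ v : V, ∑ ω with h ω = 1, F (((1 : V), v⁻¹) • ω) := by
    rw [← Finset.sum_fiberwise Finset.univ h]
    refine Finset.sum_congr rfl fun v _ => ?_
    refine Finset.sum_bij' (fun ω _ => ((1 : V), v) • ω) (fun ω _ => ((1 : V), v⁻¹) • ω)
      ?_ ?_ ?_ ?_ ?_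
    · intro ω hω
      rw [Finset.mem_filter] at hω ⊢
      exact ⟨Finset.mem_univ _, by rw [htz, hω.2, mul_inv_cancel]⟩
    · intro ω hω
      rw [Finset.mem_filter] at hω ⊢
      exact ⟨Finset.mem_univ _, by rw [htz, hω.2, one_mul, inv_inv]⟩
    · intro ω _
      rw [smul_smul, Prod.mk_mul_mk, one_mul, inv_mul_cancel]
      exact one_smul _ _
    · intro ω _
      rw [smul_smul, Prod.mk_mul_mk, one_mul, mul_inv_cancel]
      exact one_smul _ _
    · intro ω _
      rw [smul_smul, Prod.mk_mul_mk, one_mul, inv_mul_cancel]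
      congr 1
      exact (one_smul _ _).symm
  rw [h3, Finset.sum_comm]
  exact Finset.sum_congr rfl fun ω _ => h2 ω

end Pool.Agent.PSS.S2.H52
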